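import Pool.Agent.H51.EM.Targets

/-! Row FIN of em_modules (MP_58ae59_nt), adapted from row FIN of exi_modules. -/

set_option autoImplicit false

open Polynomial Finset

namespace Pool.Agent.H39.EM.FIN

open Pool.Agent.H51.EM
open Pool.Agent.H51.EI (Disc toC ev plen rts vv ResP FR RP FTI phq thq KK KX)
open Pool.Agent.H25.EE (GG VJ thr phi bN bH)

private theorem sum_filter (F : Multiset (Multiset ℂ × ℝ)) (p : ℂ → Prop) [DecidablePred p]
    (f : ℂ → ℝ) :
    (((F.map Prod.fst).sum.filter p).map f).sum =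
      (F.map fun R => ((R.1.filter p).map f).sum).sum := by
  induction F using Multiset.induction_on with
  | empty => simp
  | cons R F ih =>
    rw [Multiset.map_cons, Multiset.sum_cons, Multiset.filter_add, Multiset.map_add,
      Multiset.sum_add, ih, Multiset.map_cons, Multiset.sum_cons]

private theorem sum_card (F : Multiset (Multiset ℂ × ℝ)) :
    (F.map fun R => (Multiset.card R.1 : ℝ)).sum = (Multiset.card (F.map Prod.fst).sum : ℝ) := by
  induction F using Multiset.induction_on with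
  | empty => simp
  | cons R F ih =>
    rw [Multiset.map_cons, Multiset.sum_cons, ih, Multiset.map_cons, Multiset.sum_cons,
      Multiset.card_add]
    push_cast
    ring

private theorem mem_sum (F : Multiset (Multiset ℂ × ℝ)) {R : Multiset ℂ × ℝ} (hR : R ∈ F) {x : ℂ}
    (hx : x ∈ R.1) : x ∈ (F.map Prod.fst).sum := by
  induction F using Multiset.induction_on with
  | empty => simp at hR
  | cons S F ih =>
    rw [Multiset.map_cons, Multiset.sum_cons, Multiset.mem_add]
    rcases Multiset.mem_cons.1 hR with rfl | h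
    · exact Or.inl hx
    · exact Or.inr (ih h)

private theorem sum_le (F : Multiset (Multiset ℂ × ℝ)) (c A B : ℝ) (Φ : Multiset ℂ × ℝ → ℝ)
    (h : ∀ R ∈ F, c * Φ R ≤ 101 / 100 * (A * R.2 + B * (Multiset.card R.1 : ℝ))) :
    c * (F.map Φ).sum ≤
      101 / 100 * (A * (F.map Prod.snd).sum +
        B * (F.map fun R => (Multiset.card R.1 : ℝ)).sum) := by
  induction F using Multiset.induction_on with
  | empty => simp
  | cons R F ih =>
    have h1 := h R (Multiset.mem_cons_self R F)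
    have h2 := ih fun R' hR' => h R' (Multiset.mem_cons_of_mem hR')
    rw [Multiset.map_cons, Multiset.sum_cons, Multiset.map_cons, Multiset.sum_cons,
      Multiset.map_cons, Multiset.sum_cons]
    linarith

private theorem sum_lin (S : Multiset ℂ) (a b V : ℝ) (f g h : ℂ → ℝ)
    (hfg : ∀ β, V * f β = a * g β + b * h β) :
    V * (S.map f).sum = a * (S.map g).sum + b * (S.map h).sum := by
  induction S using Multiset.induction_on with
  | empty => simp
  | cons x S ih =>
    rw [Multiset.map_cons, Multiset.sum_cons, Multiset.map_cons, Multiset.sum_cons,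
      Multiset.map_cons, Multiset.sum_cons, mul_add, ih, hfg]
    ring

private theorem sum_mono (S : Multiset ℂ) (f g : ℂ → ℝ) (h : ∀ β, f β ≤ g β) :
    (S.map f).sum ≤ (S.map g).sum := by
  induction S using Multiset.induction_on with
  | empty => simp
  | cons x S ih =>
    rw [Multiset.map_cons, Multiset.sum_cons, Multiset.map_cons, Multiset.sum_cons]
    exact add_le_add (h x) ih

private theorem part (X0 : ℂ) (S : Multiset ℂ) (t s : ℝ) :
    (S.map fun β => min s (vv X0 β)).sum - ((S.filter fun β => vv X0 β < t).map (vv X0)).sum ≤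
      ((S.filter fun β => t ≤ vv X0 β).map fun β => min s (vv X0 β)).sum := by
  have h1 : (S.filter fun β => t ≤ vv X0 β) + (S.filter fun β => ¬ t ≤ vv X0 β) = S :=
    Multiset.filter_add_not _ _
  have h2 : (S.filter fun β => ¬ t ≤ vv X0 β) = (S.filter fun β => vv X0 β < t) := by
    apply Multiset.filter_congr
    intro x _
    exact not_le
  have h3 : (S.map fun β => min s (vv X0 β)).sum =
      ((S.filter fun β => t ≤ vv X0 β).map fun β => min s (vv X0 β)).sum +
      ((S.filter fun β => vv X0 β < t).map fun β => min s (vv X0 β)).sum := by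
    conv_lhs => rw [← h1, Multiset.map_add, Multiset.sum_add, h2]
  have h4 := sum_mono (S.filter fun β => vv X0 β < t) (fun β => min s (vv X0 β)) (vv X0)
    (fun β => min_le_right _ _)
  linarith

private theorem clog_le {n : ℕ} (hn : 2 ≤ n) : 2 ^ Nat.clog 2 n ≤ 2 * n := by
  have h1 : 0 < Nat.clog 2 n := Nat.clog_pos (by norm_num) hn
  have h2 : 2 ^ (Nat.clog 2 n).pred < n := Nat.pow_pred_clog_lt_self (by norm_num) (by omega)
  obtain ⟨k, hk⟩ : ∃ k, Nat.clog 2 n = k + 1 := ⟨Nat.clog 2 n - 1, by omega⟩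
  rw [hk] at h2 ⊢
  rw [Nat.pred_succ] at h2
  rw [pow_succ]
  omega

theorem pf_FIN (hPROF : Pool.Agent.H51.EI.T_PROF) (hSML : T_SML)
    (hKEYR : Pool.Agent.H51.EI.T_KEYR) (hNFIN : T_NFIN) : T_FIN := by
  classical
  intro c hc
  obtain ⟨Jk, hJk⟩ := hKEYR
  obtain ⟨Jn, hJn⟩ := hNFIN c hc
  refine ⟨Jk + Jn + ⌈20000 * c⌉₊ + 300, ?_⟩
  intro O X0 hO hFR J0 hJ0b hJ0
  have hc20 : 20000 * c ≤ J0 := by
    have h1 : 20000 * c ≤ (⌈20000 * c⌉₊ : ℝ) := Nat.le_ceil _
    have h2 : (⌈20000 * c⌉₊ : ℝ) ≤ J0 := by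
      have : ⌈20000 * c⌉₊ ≤ J0 := by omega
      exact_mod_cast this
    exact h1.trans h2
  obtain ⟨i0, hi0⟩ : ∃ i0 : ℕ, i0 = Nat.clog 2 J0 := ⟨_, rfl⟩
  have hi1 : J0 ≤ 2 ^ i0 := by
    rw [hi0]
    exact Nat.le_pow_clog (by norm_num) _
  have hi2 : 2 ^ i0 ≤ 2 * J0 := by
    rw [hi0]
    exact clog_le (by omega)
  have hi3 : 1 ≤ i0 := by
    rw [hi0]
    exact Nat.clog_pos (by norm_num) (by omega)
  have hJ3 : J0 ≤ J0 ^ 3 := Nat.le_self_pow (by norm_num) _
  obtain ⟨m, hm⟩ : ∃ m : ℕ, m = Nat.clog 2 (J0 ^ 3) := ⟨_, rfl⟩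
  have hm1 : J0 ^ 3 ≤ 2 ^ m := by
    rw [hm]
    exact Nat.le_pow_clog (by norm_num) _
  have hm2 : 2 ^ m ≤ 2 * J0 ^ 3 := by
    rw [hm]
    exact clog_le (by omega)
  obtain ⟨J, hJ⟩ : ∃ J : ℕ, J = 100 * 2 ^ m := ⟨_, rfl⟩
  have hJ4 : J ≤ J0 ^ 4 := by
    have h1 : 200 * J0 ^ 3 ≤ J0 * J0 ^ 3 := Nat.mul_le_mul_right _ (by omega)
    have h2 : J0 ^ 4 = J0 * J0 ^ 3 := by ring
    omega
  have hJJ0 : J ≥ J0 := by omega
  obtain ⟨D, hD1, hD2, hD3, hD4⟩ := hJ0 J hJJ0 hJ4 X0 (by
    rw [sub_self, norm_zero]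
    exact (Real.exp_pos _).le)
  have hDne : D ≠ 0 := by
    intro h0
    apply hD3
    rw [h0]
    simp [ev, toC]
  obtain ⟨F, hF1, hF2, hF3⟩ := hFR D hDne
  have hX0 : X0 ∉ rts D := by
    intro h
    unfold rts at h
    exact hD3 (Polynomial.isRoot_of_mem_roots h)
  have hplen : 0 < plen D := by
    unfold plen
    refine Finset.sum_pos (fun i hi => ?_) (Polynomial.support_nonempty.2 hDne)
    rw [norm_pos_iff]
    intro h0
    apply Polynomial.mem_support_iff.1 hi
    exact Subtype.ext h0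
  have hJpos : (0 : ℝ) < J := by
    have : 0 < J := by omega
    exact_mod_cast this
  have hlog : 0 < Real.log J := by
    apply Real.log_pos
    have : 1 < J := by omega
    exact_mod_cast this
  have hVpos : 0 < VJ J := by
    unfold VJ
    positivity
  have hbN : 0 ≤ bN J := by unfold bN; positivity
  have hbH : 0 ≤ bH J := by unfold bH; positivity
  -- upper bound
  have hup := sum_le F (8 / 1265625 * (J : ℝ) ^ 8 * Real.log J) (c * bN J) (bH J / c)
    (fun R => ((R.1.filter fun β => thr (2 ^ m) ≤ vv X0 β).map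
      fun β => GG (vv X0 β / VJ J)).sum) (by
      intro R hR
      obtain ⟨hR0, hRP⟩ := hF3 R hR
      refine hJk O X0 c hc J (by omega) (2 ^ m) (by omega) (by omega) ?_ R.1 R.2 hR0 hRP ?_
      · intro j hj hj'
        exact hJ0 j (by omega) (by omega)
      · intro h0
        apply hX0
        rw [← hF1]
        exact mem_sum F hR h0)
  rw [← sum_filter, hF1, sum_card, hF1] at hup
  have hcard : (Multiset.card (rts D) : ℝ) ≤ D.natDegree := by
    have h1 : Multiset.card (rts D) ≤ D.natDegree :=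
      (Polynomial.card_roots' _).trans Polynomial.natDegree_map_le
    exact_mod_cast h1
  have hup2 : 101 / 100 * (c * bN J * (F.map Prod.snd).sum +
      bH J / c * (Multiset.card (rts D) : ℝ)) ≤ 101 / 100 * (2 * bN J * bH J) := by
    have h1 : (F.map Prod.snd).sum ≤ bH J / c := by
      refine hF2.trans ?_
      rw [Real.log_le_iff_le_exp hplen]
      exact hD2
    have h2 : (Multiset.card (rts D) : ℝ) ≤ c * bN J := hcard.trans hD1
    have h3 := mul_le_mul_of_nonneg_left h1 (show 0 ≤ c * bN J by positivity)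
    have h4 := mul_le_mul_of_nonneg_left h2 (show 0 ≤ bH J / c by positivity)
    have h5 : c * bN J * (bH J / c) = bN J * bH J := by
      field_simp
    have h6 : bH J / c * (c * bN J) = bN J * bH J := by
      field_simp
    rw [h5] at h3
    rw [h6] at h4
    linarith
  -- lower bounds
  have hsml := hSML O X0 c (1 / 10 ^ 20) i0 J hO hFR hc (by norm_num) (by norm_num) hi3
    (fun j hj hj' => hJ0 j (by omega) (by omega)) J m D (by omega) le_rfl (by omega) hD3 hD1 hD2
  obtain ⟨K, hK⟩ : ∃ K : ℝ, K = c * thr (2 ^ i0) := ⟨_, rfl⟩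
  rw [← hK] at hsml
  have hKle : K ≤ 1 / 10 ^ 9 * (J : ℝ) ^ 2 := by
    have hJ0r : (300 : ℝ) ≤ J0 := by
      have : 300 ≤ J0 := by omega
      exact_mod_cast this
    have h1 : (((2 ^ i0 : ℕ) : ℝ)) ≤ 2 * J0 := by exact_mod_cast hi2
    have h0 : (0 : ℝ) < ((2 ^ i0 : ℕ) : ℝ) := by positivity
    have h2 : Real.log ((2 ^ i0 : ℕ) : ℝ) ≤ 2 * J0 := by
      have := Real.log_le_sub_one_of_pos h0
      linarith
    have h20 : 0 ≤ Real.log ((2 ^ i0 : ℕ) : ℝ) := Real.log_natCast_nonneg _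
    have h3 : ((2 ^ i0 : ℕ) : ℝ) ^ 4 ≤ (2 * J0) ^ 4 := pow_le_pow_left₀ h0.le h1 4
    have h4 : ((2 ^ i0 : ℕ) : ℝ) ^ 4 * Real.log ((2 ^ i0 : ℕ) : ℝ) ≤ (2 * J0) ^ 4 * (2 * J0) :=
      mul_le_mul h3 h2 h20 (by positivity)
    have h5 : K ≤ c * (713 / 200000 * ((2 * J0) ^ 4 * (2 * J0))) := by
      rw [hK]
      unfold thr
      refine mul_le_mul_of_nonneg_left ?_ hc.le
      rw [mul_assoc]
      exact mul_le_mul_of_nonneg_left h4 (by norm_num)
    have h6 : (J0 : ℝ) ^ 3 ≤ 2 ^ m := by exact_mod_cast hm1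
    have h7 : (J : ℝ) = 100 * 2 ^ m := by
      rw [hJ]
      push_cast
      ring
    have h8 : 10 ^ 4 * (J0 : ℝ) ^ 6 ≤ (J : ℝ) ^ 2 := by
      have h9 : (J0 : ℝ) ^ 3 * (J0 : ℝ) ^ 3 ≤ 2 ^ m * 2 ^ m :=
        mul_le_mul h6 h6 (by positivity) (by positivity)
      rw [h7]
      nlinarith
    have h10 : c * (713 / 200000 * ((2 * (J0 : ℝ)) ^ 4 * (2 * J0))) ≤
        1 / 10 ^ 9 * (10 ^ 4 * (J0 : ℝ) ^ 6) := by
      have h11 : c * (J0 : ℝ) ^ 5 ≤ J0 / 20000 * (J0 : ℝ) ^ 5 :=
        mul_le_mul_of_nonneg_right (by linarith) (by positivity)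
      have h12 : (0 : ℝ) ≤ (J0 : ℝ) ^ 6 := by positivity
      have h13 : c * (713 / 200000 * ((2 * (J0 : ℝ)) ^ 4 * (2 * J0))) =
          713 * 32 / 200000 * (c * (J0 : ℝ) ^ 5) := by ring
      rw [h13]
      have h14 : (J0 : ℝ) / 20000 * (J0 : ℝ) ^ 5 = (J0 : ℝ) ^ 6 / 20000 := by ring
      rw [h14] at h11
      linarith
    linarith
  have hlow : ∀ s : ℝ, 0 ≤ s → phi (1 / 10 ^ 20) J s -
      D.natDegree * Real.log (8 * ((D.natDegree : ℝ) + 1)) -
      (K * (J : ℝ) ^ 6 + 3 / 20000 * ((2 ^ m : ℕ) : ℝ) ^ 2 * (J : ℝ) ^ 6 * Real.log J) ≤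
      (((rts D).filter fun β => thr (2 ^ m) ≤ vv X0 β).map fun β => min s (vv X0 β)).sum := by
    intro s hs
    have h1 := hPROF O X0 hO D D.natDegree s (phi (1 / 10 ^ 20) J s) le_rfl hs hD3
      (fun x hx => hD4 s hs x hx)
    have h2 := part X0 (rts D) (thr (2 ^ m)) s
    push_cast
    linarith
  have hlow1 := hlow (93 / 245 * VJ J) (by positivity)
  have hlow2 := hlow (147 / 155 * VJ J) (by positivity)
  have hGG := sum_lin ((rts D).filter fun β => thr (2 ^ m) ≤ vv X0 β) (49 / 100) (31 / 100) (VJ J)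
    (fun β => GG (vv X0 β / VJ J)) (fun β => min (93 / 245 * VJ J) (vv X0 β))
    (fun β => min (147 / 155 * VJ J) (vv X0 β)) (by
      intro β
      have key : ∀ s : ℝ, VJ J * min (vv X0 β / VJ J) s = min (s * VJ J) (vv X0 β) := by
        intro s
        rw [mul_min_of_nonneg _ _ hVpos.le, mul_div_cancel₀ _ hVpos.ne', min_comm, mul_comm s]
      simp only [GG]
      rw [mul_add, mul_left_comm, key, mul_left_comm, key])
  have hfin := hJn J (by omega) K D.natDegree (2 ^ m) hKle hD1 (by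
    rw [hJ]
    push_cast
    exact le_rfl)
  have hc' : 8 / 1265625 * (J : ℝ) ^ 8 * Real.log J = 2 / 1125 * (J : ℝ) ^ 4 * VJ J := by
    unfold VJ
    ring
  have hl4 : 0 < 2 / 1125 * (J : ℝ) ^ 4 := by positivity
  rw [hc', mul_assoc, hGG] at hup
  have h9 := mul_le_mul_of_nonneg_left hlow1 (show (0 : ℝ) ≤ 49 / 100 by norm_num)
  have h10 := mul_le_mul_of_nonneg_left hlow2 (show (0 : ℝ) ≤ 31 / 100 by norm_num)
  have h11 := mul_le_mul_of_nonneg_left (add_le_add h9 h10) hl4.le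
  linarith

end Pool.Agent.H39.EM.FIN
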