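import Pool.Agent.H92.EM.TA
import Pool.Agent.H53.EHD.ELD

/-!
Row MLD of emd_modules: the lifted vector field.
-/

namespace Pool.Agent.H39.EM

open scoped BigOperators ComplexConjugate ContDiff ComplexOrder Nat
open MeasureTheory Pool.Agent.H92.EQ Pool.Agent.H92.EM Pool.Agent.H88.EQ.LDrow
open Pool.Agent.H53.EHD

noncomputable section

/-- the scaling of the rows -/
def scl {N : ℕ} (m : ℕ) (c : ℂ) : Fin N → ℂ := fun i => if (i : ℕ) < m then 1 else c

theorem prod_scl (N m : ℕ) (c : ℂ) : ∏ i : Fin N, scl m c i = c ^ (N - m) := by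
  unfold scl
  rw [Fin.prod_univ_eq_prod_range (fun i : ℕ => if i < m then (1 : ℂ) else c) N,
    Finset.prod_ite, Finset.prod_const_one, one_mul, Finset.prod_const]
  congr 1
  have : Finset.filter (fun i => ¬ i < m) (Finset.range N) = Finset.Ico m N := by
    ext i
    simp only [Finset.mem_filter, Finset.mem_range, Finset.mem_Ico, not_lt]
    exact and_comm
  rw [this, Nat.card_Ico]

/-- rows of a matrix with only the diagonal entry -/
theorem mulVec_row {N : ℕ} (M : Matrix (Fin N) (Fin N) ℂ) (v : Fin N → ℂ) (i : Fin N)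
    (h : ∀ j, j ≠ i → M i j = 0) : M.mulVec v i = M i i * v i := by
  rw [Matrix.mulVec, dotProduct, Finset.sum_eq_single i]
  · intro j _ hj
    rw [h j hj, zero_mul]
  · intro hi
    exact absurd (Finset.mem_univ i) hi

theorem pf_MLD : T_MLD := by
  intro m k hm
  refine ⟨(k + 1) * ((k + 1) * ((k + 1) ! * (2 * (k + 1)))), by positivity, ?_⟩
  intro P A x y D M ρ τ s hD hM hρ hρ1 hτ hτ1 hs hs1 hy hx hA0 hP0 hPx hA hP hdet
  have hKr : (0 : ℝ) < (k : ℝ) + 1 := by positivity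
  have hNτ : ((k + 1 : ℕ) : ℝ) * τ ≤ 1 / 2 := by
    push_cast
    calc ((k : ℝ) + 1) * τ ≤ ((k : ℝ) + 1) * (1 / (2 * ((k : ℝ) + 1))) :=
          mul_le_mul_of_nonneg_left hτ1 hKr.le
      _ = 1 / 2 := by field_simp
  have hτ2 : τ ≤ 1 / 2 := by
    push_cast at hNτ
    have : 0 ≤ (k : ℝ) * τ := by positivity
    linarith
  have hX : ∀ i j, ‖(A - 1) i j‖ ≤ τ := hA
  have hBdet : (1 + (s : ℂ) • (A - 1)).det ≠ 0 := detB_ne hτ hX hNτ hs hs1
  refine ⟨hBdet, ?_⟩
  have hyn : 0 < nrm y := nrm_pos hy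
  have hyc : ((nrm y : ℝ) : ℂ) ≠ 0 := by exact_mod_cast hyn.ne'
  set B : Matrix (Fin (k + 1)) (Fin (k + 1)) ℂ := 1 + (s : ℂ) • (A - 1) with hB
  have hBu : IsUnit B.det := isUnit_iff_ne_zero.mpr hBdet
  set η : Fin (k + 1) → ℂ := B⁻¹.mulVec ((A - 1).mulVec y) with hη
  have hBη : B.mulVec η = (A - 1).mulVec y := by
    rw [hη, Matrix.mulVec_mulVec, Matrix.mul_nonsing_inv B hBu, Matrix.one_mulVec]
  have hηn : ‖η‖ ≤ 2 * ((k + 1) * τ * ‖y‖) := by
    have h1 := hlowB hτ hX hNτ hs hs1 η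
    change ‖η‖ / 2 ≤ ‖B.mulVec η‖ at h1
    rw [hBη] at h1
    have h2 : ‖(A - 1).mulVec y‖ ≤ ((k + 1 : ℕ) : ℝ) * τ * ‖y‖ := norm_mulVec_le hτ hX y
    push_cast at h2
    linarith
  have hDr : (1 : ℝ) ≤ D := by exact_mod_cast hD
  have hDc : (D : ℂ) ≠ 0 := by
    have : (D : ℝ) ≠ 0 := by linarith
    exact_mod_cast this
  -- the diagonal rows
  set b : Fin (k + 1) → ℂ := fun i => 1 + (s : ℂ) * (A - 1) i i with hb
  have hbn : ∀ i, 1 / 2 ≤ ‖b i‖ := by
    intro i
    have h1 : ‖(s : ℂ) * (A - 1) i i‖ ≤ 1 / 2 := by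
      rw [norm_mul, Complex.norm_real, Real.norm_of_nonneg hs]
      calc s * ‖(A - 1) i i‖ ≤ 1 * τ := mul_le_mul hs1 (hX i i) (norm_nonneg _) zero_le_one
        _ ≤ 1 / 2 := by rw [one_mul]; exact hτ2
    have h2 : ‖(1 : ℂ)‖ - ‖(s : ℂ) * (A - 1) i i‖ ≤ ‖(1 : ℂ) + (s : ℂ) * (A - 1) i i‖ :=
      norm_sub_le_norm_add _ _
    rw [norm_one] at h2
    change 1 / 2 ≤ ‖(1 : ℂ) + (s : ℂ) * (A - 1) i i‖
    linarith
  have hb0 : ∀ i, b i ≠ 0 := by
    intro i h
    have := hbn i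
    rw [h, norm_zero] at this
    norm_num at this
  have hηi : ∀ i : Fin (k + 1), (i : ℕ) < m → b i * η i = (A - 1) i i * y i := by
    intro i hi
    have h1 : B.mulVec η i = b i * η i := by
      rw [mulVec_row B η i]
      · rw [hB, hb]
        simp [Matrix.add_apply, Matrix.smul_apply]
      · intro j hj
        rw [hB, Matrix.add_apply, Matrix.smul_apply, Matrix.sub_apply, hA0 i j hi hj,
          Matrix.one_apply_ne (Ne.symm hj)]
        simp
    rw [← h1, hBη, mulVec_row (A - 1) y i]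
    intro j hj
    rw [Matrix.sub_apply, hA0 i j hi hj, Matrix.one_apply_ne (Ne.symm hj), sub_zero]
  -- the right-hand side
  set ζ : Fin (k + 1) → ℂ := fun i => if (i : ℕ) < m then (A - 1) i i * x i / (D * b i)
    else ((nrm y : ℝ) : ℂ)⁻¹ * η i with hζ
  have hxi : ∀ i, ‖x i‖ ≤ 1 := by
    intro i
    have h1 := norm_le_pi_norm x i
    have h2 := le_nrm x
    rw [hx] at h2
    exact h1.trans h2
  have hζn : ‖ζ‖ ≤ 2 * (k + 1) * τ := by
    rw [pi_norm_le_iff_of_nonneg (by positivity)]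
    intro i
    rw [hζ]
    by_cases hi : (i : ℕ) < m
    · simp only [if_pos hi]
      rw [norm_div, norm_mul, norm_mul]
      have h1 : ‖(D : ℂ)‖ = D := by
        rw [Complex.norm_natCast]
      rw [h1]
      have h2 : ‖(A - 1) i i‖ * ‖x i‖ ≤ τ * 1 :=
        mul_le_mul (hX i i) (hxi i) (norm_nonneg _) hτ
      have h3 : 1 * (1 / 2) ≤ (D : ℝ) * ‖b i‖ :=
        mul_le_mul hDr (hbn i) (by norm_num) (by linarith)
      rw [div_le_iff₀ (by linarith)]
      have h4 : (0 : ℝ) ≤ (k : ℝ) * τ := by positivity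
      have h5 : 2 * ((k : ℝ) + 1) * τ * (1 / 2) ≤ 2 * ((k : ℝ) + 1) * τ * ((D : ℝ) * ‖b i‖) :=
        mul_le_mul_of_nonneg_left (by linarith) (by positivity)
      linarith
    · simp only [if_neg hi]
      rw [norm_mul, norm_inv, Complex.norm_real, Real.norm_of_nonneg hyn.le,
        inv_mul_le_iff₀ hyn]
      have h1 := (norm_le_pi_norm η i).trans hηn
      have h2 : 2 * ((k + 1) * τ * ‖y‖) ≤ 2 * (((k : ℝ) + 1) * τ * nrm y) := by
        refine mul_le_mul_of_nonneg_left ?_ (by norm_num)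
        exact mul_le_mul_of_nonneg_left (le_nrm y) (by positivity)
      linarith
  -- the scaled matrix
  set R : Matrix (Fin (k + 1)) (Fin (k + 1)) ℂ :=
    Matrix.diagonal (scl m ((nrm y : ℝ) : ℂ)⁻¹) * lowM m P with hR
  have hRe : ∀ i j, R i j = if (i : ℕ) < m then (1 : Matrix (Fin (k + 1)) (Fin (k + 1)) ℂ) i j
      else ((nrm y : ℝ) : ℂ)⁻¹ * P i j := by
    intro i j
    rw [hR, Matrix.diagonal_mul]
    unfold scl lowM
    split_ifs
    · rw [one_mul]
    · rfl
  have hRn : ∀ i j, ‖R i j‖ ≤ M := by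
    intro i j
    rw [hRe]
    by_cases hi : (i : ℕ) < m
    · rw [if_pos hi, Matrix.one_apply]
      split_ifs
      · rw [norm_one]; exact hM
      · rw [norm_zero]; linarith
    · rw [if_neg hi, norm_mul, norm_inv, Complex.norm_real, Real.norm_of_nonneg hyn.le,
        inv_mul_le_iff₀ hyn, mul_comm]
      exact hP i j
  have hRdet : ρ ≤ ‖R.det‖ := by
    rw [hR, Matrix.det_mul, Matrix.det_diagonal, prod_scl, norm_mul, norm_pow, norm_inv,
      Complex.norm_real, Real.norm_of_nonneg hyn.le, inv_pow, le_inv_mul_iff₀ (by positivity),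
      mul_comm]
    exact hdet
  have hRdet0 : R.det ≠ 0 := by
    intro h0
    rw [h0, norm_zero] at hRdet
    linarith
  have hRu : IsUnit R.det := isUnit_iff_ne_zero.mpr hRdet0
  set ξ : Fin (k + 1) → ℂ := R⁻¹.mulVec ζ with hξ
  have hRξ : R.mulVec ξ = ζ := by
    rw [hξ, Matrix.mulVec_mulVec, Matrix.mul_nonsing_inv R hRu, Matrix.one_mulVec]
  have hξn : ‖ξ‖ ≤ ((k + 1 : ℕ) : ℝ) * ((k + 1) ! * M ^ (k + 1) / ρ) * ‖ζ‖ := by
    refine norm_mulVec_le (by positivity) (fun i j => ?_) ζ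
    rw [Matrix.inv_def, Ring.inverse_eq_inv', Matrix.smul_apply, smul_eq_mul, norm_mul, norm_inv]
    calc ‖R.det‖⁻¹ * ‖R.adjugate i j‖ ≤ ρ⁻¹ * ((k + 1) ! * M ^ (k + 1)) := by
          refine mul_le_mul (inv_anti₀ hρ hRdet) (adj_le hM hRn i j) (norm_nonneg _)
            (by positivity)
      _ = (k + 1) ! * M ^ (k + 1) / ρ := by ring
  refine ⟨ξ, ?_, ?_⟩
  · have hPξ : P.mulVec ξ = η := by
      funext i
      by_cases hi : (i : ℕ) < m
      · have h1 : R.mulVec ξ i = ξ i := by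
          rw [mulVec_row R ξ i, hRe, if_pos hi, Matrix.one_apply_eq, one_mul]
          intro j hj
          rw [hRe, if_pos hi, Matrix.one_apply_ne (Ne.symm hj)]
        have h2 : ξ i = (A - 1) i i * x i / (D * b i) := by
          rw [← h1, hRξ, hζ]
          simp only [if_pos hi]
        rw [mulVec_row P ξ i (fun j hj => hP0 i j hi hj), h2]
        have h3 := hηi i hi
        have h4 := hPx i hi
        have h5 : P i i * ((A - 1) i i * x i / (D * b i)) =
            (P i i * x i) * (A - 1) i i / (D * b i) := by ring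
        rw [h5, h4]
        have h6 : (D : ℂ) * y i * (A - 1) i i / (D * b i) = ((A - 1) i i * y i) / b i := by
          field_simp
        rw [h6, ← h3]
        field_simp [hb0 i]
      · have h1 : R.mulVec ξ i = ((nrm y : ℝ) : ℂ)⁻¹ * P.mulVec ξ i := by
          simp only [Matrix.mulVec, dotProduct]
          rw [Finset.mul_sum]
          refine Finset.sum_congr rfl fun j _ => ?_
          rw [hRe, if_neg hi, mul_assoc]
        have h2 : ((nrm y : ℝ) : ℂ)⁻¹ * P.mulVec ξ i = ((nrm y : ℝ) : ℂ)⁻¹ * η i := by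
          rw [← h1, hRξ, hζ]
          simp only [if_neg hi]
        exact mul_left_cancel₀ (inv_ne_zero hyc) h2
    rw [← Matrix.mulVec_mulVec, hPξ, hBη]
  · have hM0 : 0 ≤ M := by linarith
    calc nrm ξ ≤ ((k + 1 : ℕ) : ℝ) * ‖ξ‖ := nrm_le _
      _ ≤ ((k + 1 : ℕ) : ℝ) * (((k + 1 : ℕ) : ℝ) * ((k + 1) ! * M ^ (k + 1) / ρ) *
            (2 * (k + 1) * τ)) := by
          refine mul_le_mul_of_nonneg_left ?_ (by positivity)
          exact hξn.trans (mul_le_mul_of_nonneg_left hζn (by positivity))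
      _ = (k + 1) * ((k + 1) * ((k + 1) ! * (2 * (k + 1)))) * M ^ (k + 1) / ρ * τ := by
          push_cast
          ring

end

end Pool.Agent.H39.EM
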