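import Pool.Agent.H92.EM.TA
import Pool.Agent.H95.EHD.ETG

/-!
Row MTG of emd_modules: generic masked matrices, one entry moves.
-/

namespace Pool.Agent.H39.EM

open scoped BigOperators ComplexConjugate ContDiff ComplexOrder
open MeasureTheory Pool.Agent.H92.EQ Pool.Agent.H92.EM Pool.Agent.H95.EQ Pool.Agent.H95.EHD

theorem msk_add {k : ℕ} (m : ℕ) (Y P : Fin (k + 1) → Fin (k + 1) → ℂ)
    (hP : ∀ a b : Fin (k + 1), (a : ℕ) < m → b ≠ a → P a b = 0) (t : ℂ) :
    msk m (Matrix.of (Y + t • P)) = msk m (Matrix.of Y) + t • Matrix.of P := by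
  funext a b
  simp only [msk, Matrix.add_apply, Matrix.smul_apply, Matrix.of_apply, Pi.add_apply,
    Pi.smul_apply, smul_eq_mul]
  by_cases h : (a : ℕ) < m ∧ b ≠ a
  · rw [if_pos h, if_pos h, hP a b h.1 h.2, mul_zero, add_zero]
  · rw [if_neg h, if_neg h]

theorem continuous_msk {k : ℕ} (m : ℕ) :
    Continuous fun X : Fin (k + 1) → Fin (k + 1) → ℂ =>
      (msk m (Matrix.of X) : Fin (k + 1) → Fin (k + 1) → ℂ) := by
  refine continuous_pi fun a => continuous_pi fun b => ?_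
  simp only [msk, Matrix.of_apply]
  split_ifs
  · exact continuous_const
  · exact (continuous_apply b).comp (continuous_apply a)

theorem ae_det_msk {k : ℕ} (m : ℕ) :
    ∀ᵐ X : Fin (k + 1) → Fin (k + 1) → ℂ, (msk m (Matrix.of X)).det ≠ 0 := by
  refine ae_of_lines (fun X => (msk m (Matrix.of X)).det)
    (continuous_det_of.comp (continuous_msk m)) (fun a b => if a = b then 1 else 0) ?_
  intro Y
  filter_upwards [ae_det_line (msk m (Matrix.of Y))] with t ht
  rw [msk_add m Y _ (fun a b _ h => if_neg (Ne.symm h)) t]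
  have e : msk m (Matrix.of Y) +
      t • Matrix.of (fun a b : Fin (k + 1) => if a = b then (1 : ℂ) else 0) =
      Matrix.scalar (Fin (k + 1)) t + msk m (Matrix.of Y) := by
    ext a b
    simp only [Matrix.of_apply, Matrix.smul_apply, smul_eq_mul, Matrix.add_apply,
      Matrix.scalar_apply, Matrix.diagonal_apply]
    split_ifs <;> ring
  rw [e]
  exact ht

theorem ae_cof_msk {k : ℕ} (m : ℕ) (i j : Fin (k + 1))
    (h : i = j ∨ (m ≤ (i : ℕ) ∧ m ≤ (j : ℕ))) :
    ∀ᵐ X : Fin (k + 1) → Fin (k + 1) → ℂ,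
      ((msk m (Matrix.of X)).updateRow i (Pi.single j (1 : ℂ))).det ≠ 0 := by
  refine ae_of_lines
    (fun X => ((msk m (Matrix.of X)).updateRow i (Pi.single j (1 : ℂ))).det)
    ((continuous_det_updateRow i _).comp (continuous_msk m))
    (fun a b => if b = Equiv.swap i j a then 1 else 0) ?_
  intro Y
  filter_upwards [cof_line i j (msk m (Matrix.of Y))] with t ht
  rw [msk_add m Y _ (fun a b ha hb => if_neg (fun h' => hb (by
    rw [h']
    rcases h with h | h
    · rw [h, Equiv.swap_self]; rfl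
    · refine Equiv.swap_apply_of_ne_of_ne ?_ ?_
      · intro e; rw [e] at ha; omega
      · intro e; rw [e] at ha; omega))) t]
  exact ht

theorem caseA {N : ℕ} (hTG : T_TG) (Y : Fin N → Fin N → ℂ) (i j : Fin N)
    (h : ((Matrix.of Y).updateRow i (Pi.single j (1 : ℂ))).det ≠ 0) :
    ∃ (t1 : ℂ) (C : ℝ), ∀ t, t ≠ t1 → (Matrix.of (rep Y i j t)).det ≠ 0 ∧
      ∀ y : Fin N → ℂ, y ≠ 0 →
        |ell ((Matrix.of (rep Y i j t)).mulVec y) - ell y| ≤ N * |Real.log ‖t - t1‖| + C := by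
  obtain ⟨t1, C, h1, h2⟩ := hTG N Y i j (by rw [cof_eq]; exact h)
  exact ⟨t1, C, fun t ht => ⟨fun h => ht ((h1 t).1 h), fun y hy => h2 t ht y hy⟩⟩

theorem caseB {N : ℕ} (Y : Fin N → Fin N → ℂ) (i j : Fin N) (hne : i ≠ j)
    (hdet : (Matrix.of Y).det ≠ 0) (hrow : ∀ b, b ≠ j → Y j b = 0) :
    ∃ (t1 : ℂ) (C : ℝ), ∀ t, t ≠ t1 → (Matrix.of (rep Y i j t)).det ≠ 0 ∧
      ∀ y : Fin N → ℂ, y ≠ 0 →
        |ell ((Matrix.of (rep Y i j t)).mulVec y) - ell y| ≤ N * |Real.log ‖t - t1‖| + C := by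
  set M : Matrix (Fin N) (Fin N) ℂ := Matrix.of Y with hM
  have hr : M j = (Y j j) • (Pi.single j (1 : ℂ) : Fin N → ℂ) := by
    funext b
    rw [hM, Matrix.of_apply, Pi.smul_apply, smul_eq_mul]
    by_cases hb : b = j
    · subst hb; simp
    · rw [hrow b hb, Pi.single_eq_of_ne hb, mul_zero]
  have hX0 : Y j j ≠ 0 := by
    intro h
    rw [h, zero_smul] at hr
    exact hdet (Matrix.det_eq_zero_of_row_eq_zero j fun b => by rw [hr]; rfl)
  have hcof : (M.updateRow i (Pi.single j (1 : ℂ))).det = 0 := by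
    have h1 : (M.updateRow i (M j)).det = 0 :=
      Matrix.det_zero_of_row_eq (M := M.updateRow i (M j)) (i := j) (j := i) (Ne.symm hne) (by
        rw [Matrix.updateRow_self, Matrix.updateRow_ne (Ne.symm hne)])
    rw [hr, Matrix.det_updateRow_smul] at h1
    exact (mul_eq_zero.1 h1).resolve_left hX0
  have hc2 : ∀ t, (Matrix.of (rep Y i j t)).det = (Matrix.of (rep Y i j 0)).det := by
    intro t
    rw [det_rep, cof_eq, hcof, mul_zero, add_zero]
  have hself : rep Y i j (Y i j) = Y := by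
    unfold rep
    rw [Function.update_eq_self, Function.update_eq_self]
  have hD : (Matrix.of (rep Y i j 0)).det ≠ 0 := by
    rw [← hc2 (Y i j), hself]
    exact hdet
  obtain ⟨C, hC⟩ := bound_const Y i j _ hD hc2
  refine ⟨0, C, fun t ht => ⟨by rw [hc2 t]; exact hD, fun y hy => ?_⟩⟩
  rw [sub_zero]
  exact hC t ht y hy

theorem pf_MTG (hTG : T_TG) (_hTH : T_TH) : T_MTG := by
  intro m k i j _ hij
  by_cases hc : i = j ∨ (m ≤ (i : ℕ) ∧ m ≤ (j : ℕ))
  · filter_upwards [ae_det_msk (k := k) m, ae_cof_msk m i j hc] with X hX1 hX2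
    exact ⟨hX1, caseA hTG (msk m (Matrix.of X)) i j hX2⟩
  · have hne : i ≠ j := fun h => hc (Or.inl h)
    have him : m ≤ (i : ℕ) := by
      by_contra h
      exact hne (hij (not_le.1 h)).symm
    have hjm : (j : ℕ) < m := by
      by_contra h
      exact hc (Or.inr ⟨him, not_lt.1 h⟩)
    filter_upwards [ae_det_msk (k := k) m] with X hX1
    exact ⟨hX1, caseB (msk m (Matrix.of X)) i j hne hX1 fun b hb => if_pos ⟨hjm, hb⟩⟩

end Pool.Agent.H39.EM
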